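import Pool.Agent.H47.UG.Ch

/-!
# KDIM: the dimension over `K` of the global sections in a finite dimensional `L`-space

The statements `strict`, `ψ_GG`, `retract`, `H0_OO`, `finrank_quot`, `finrank_subsp` enter as hypotheses
of `finrank_inter_le_of`.
-/

set_option autoImplicit false

open MvPolynomial

namespace Pool.Agent.H16.UG

open Pool.Agent.H47.UG

theorem hyp_succ (n d s : ℕ) : hyp n d s ≤ hyp n d (s + 1) := by
  unfold hyp
  have h1 : (s + 1 + n + 1).choose (n + 1) = (s + n + 1).choose n + (s + n + 1).choose (n + 1) := by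
    rw [show s + 1 + n + 1 = (s + n + 1) + 1 by ring]
    exact Nat.choose_succ_succ _ _
  have h3 : (s + n + 1 - d).choose (n + 1) ≤ (s + n + 1).choose (n + 1) :=
    Nat.choose_le_choose _ (Nat.sub_le _ _)
  have h4 : (s + n + 1 - d).choose n ≤ (s + n + 1).choose n :=
    Nat.choose_le_choose _ (Nat.sub_le _ _)
  by_cases hd : d ≤ s + n + 1
  · have h2 : (s + 1 + n + 1 - d).choose (n + 1) =
        (s + n + 1 - d).choose n + (s + n + 1 - d).choose (n + 1) := by
      rw [show s + 1 + n + 1 - d = (s + n + 1 - d) + 1 by omega]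
      exact Nat.choose_succ_succ _ _
    omega
  · have h2 : (s + 1 + n + 1 - d).choose (n + 1) = 0 := by
      rw [show s + 1 + n + 1 - d = 0 by omega]
      simp
    omega

theorem hyp_mono (n d : ℕ) : Monotone (hyp n d) := monotone_nat_of_le_succ (hyp_succ n d)

theorem hyp_pos (n d s : ℕ) (hd : 1 ≤ d) : 0 < hyp n d s := by
  unfold hyp
  have h1 : (s + n + 1).choose (n + 1) = (s + n).choose n + (s + n).choose (n + 1) :=
    Nat.choose_succ_succ _ _
  have h2 : (s + n + 1 - d).choose (n + 1) ≤ (s + n).choose (n + 1) :=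
    Nat.choose_le_choose _ (by omega)
  have h3 : 0 < (s + n).choose n := Nat.choose_pos (by omega)
  omega

theorem rn {E V W : Type} [Field E] [AddCommGroup V] [Module E V] [AddCommGroup W] [Module E W]
    (f : V →ₗ[E] W) (U : Submodule E V) [FiniteDimensional E U] :
    Module.finrank E (U.map f) + Module.finrank E (U ⊓ LinearMap.ker f : Submodule E V) =
      Module.finrank E U := by
  have h := LinearMap.finrank_range_add_finrank_ker (f.domRestrict U)
  rw [LinearMap.range_domRestrict] at h
  have h2 : (LinearMap.ker (f.domRestrict U)).map U.subtype = U ⊓ LinearMap.ker f := by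
    rw [LinearMap.ker_domRestrict, Submodule.map_comap_subtype]
  rw [← h2, Submodule.finrank_map_subtype_eq]
  exact h

/-- The form of SUBSP which is used. -/
def Subsp : Prop := ∀ {K E ι : Type} [Field K] [Field E] [Algebra K E] [Fintype ι] (B : Submodule K E)
    [FiniteDimensional K B] (W : Submodule E (ι → E)) (U : Submodule K (ι → E)) (_ : ∀ v ∈ U, ∀ i, v i ∈ B)
    (_ : ∀ v ∈ U, v ∈ W), FiniteDimensional K U ∧
    Module.finrank K U ≤ Module.finrank E W * Module.finrank K B

variable {K : Type} [Field K] {n d : ℕ} {F : HP K n} (T : FF d F)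

/-- The graded piece. -/
theorem gr_bound (hsub : Subsp) (inj : Function.Injective T.ψ) (B : Submodule K T.L) [FiniteDimensional K B]
    (U : Submodule T.L T.BB) (hU : FiniteDimensional T.L U) (H : Submodule K T.BB) (hHU : ∀ v ∈ H, v ∈ U)
    (hB : ∀ v ∈ H, ∀ b, coeff b (T.ψ v) ∈ B) :
    FiniteDimensional K H ∧ Module.finrank K H ≤ Module.finrank T.L U * Module.finrank K B := by
  classical
  obtain ⟨S, hS⟩ := (Submodule.fg_iff_finiteDimensional U).2 hU
  set Sup : Finset (ℕ × (Fin (n + 2) × Fin (n + 2)) →₀ ℕ) := S.biUnion fun v => (T.ψ v).support with hSup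
  have hsup : ∀ v ∈ U, (T.ψ v).support ⊆ Sup := by
    intro v hv
    rw [← hS] at hv
    induction hv using Submodule.span_induction with
    | mem x hx => exact Finset.subset_biUnion_of_mem (fun v => (T.ψ v).support) hx
    | zero => simp
    | add x y _ _ hx hy =>
      rw [map_add]
      exact (support_add).trans (Finset.union_subset hx hy)
    | smul a x _ hx =>
      rw [map_smul]
      exact (support_smul).trans hx
  let g : T.BB →ₗ[T.L] (Sup → T.L) := LinearMap.pi fun b : Sup => lcoeff T.L b.1 ∘ₗ T.ψ.toLinearMap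
  have hg : ∀ v (b : Sup), g v b = coeff b.1 (T.ψ v) := fun v b => rfl
  have ginj : ∀ v ∈ U, g v = 0 → v = 0 := by
    intro v hv h0
    apply inj
    rw [map_zero]
    ext b
    rw [coeff_zero]
    by_cases hb : b ∈ Sup
    · exact congrFun h0 ⟨b, hb⟩
    · have : b ∉ (T.ψ v).support := fun h => hb (hsup v hv h)
      rwa [mem_support_iff, not_not] at this
  let gK : T.BB →ₗ[K] (Sup → T.L) := g.restrictScalars K
  obtain ⟨h1, h2⟩ := hsub B (U.map g) (H.map gK)
    (by
      rintro v ⟨v, hv, rfl⟩ b
      exact hB v hv b.1)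
    (by
      rintro v ⟨v, hv, rfl⟩
      exact ⟨v, hHU v hv, rfl⟩)
  have hinj : Function.Injective (gK.submoduleMap H) := by
    rw [injective_iff_map_eq_zero]
    rintro ⟨v, hv⟩ h0
    have h0' : g v = 0 := congrArg Subtype.val h0
    exact Subtype.ext (ginj v (hHU v hv) h0')
  have hfin : FiniteDimensional K H := FiniteDimensional.of_injective (gK.submoduleMap H) hinj
  refine ⟨hfin, ?_⟩
  refine (LinearMap.finrank_le_finrank_of_injective hinj).trans (h2.trans ?_)
  exact Nat.mul_le_mul_right _ (Submodule.finrank_map_le g U)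

/-- The induction over the degree. -/
theorem kdim_core (M : ℕ → Submodule K T.BB) (E : Submodule K T.BB) (m h : ℕ)
    (hs : ∀ q, ∀ v ∈ E, (∀ j < q, homogeneousComponent j v = 0) → homogeneousComponent q v ∈ M q)
    (hg : ∀ q ≤ m, ∀ (U : Submodule T.L T.BB) (_ : FiniteDimensional T.L U) (H : Submodule K T.BB)
      (_ : H ≤ M q) (_ : ∀ v ∈ H, v ∈ U),
      FiniteDimensional K H ∧ Module.finrank K H ≤ Module.finrank T.L U * h)
    (hz : ∀ q > m, M q = ⊥) :
    ∀ (r q : ℕ) (_ : m + 1 ≤ q + r) (U : Submodule T.L T.BB) (_ : FiniteDimensional T.L U)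
      (H : Submodule K T.BB) (_ : H ≤ E) (_ : ∀ v ∈ H, v ∈ U)
      (_ : ∀ v ∈ U, ∀ j < q, homogeneousComponent j v = 0),
      FiniteDimensional K H ∧ Module.finrank K H ≤ Module.finrank T.L U * h := by
  classical
  intro r
  induction r with
  | zero =>
    intro q hq U hU H hH hHU hj
    have hH0 : H = ⊥ := by
      rw [eq_bot_iff]
      intro v hv
      have hall : ∀ j, homogeneousComponent j v = 0 := by
        intro j
        induction j using Nat.strong_induction_on with
        | _ j ih =>
          by_cases hjq : j < q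
          · exact hj v (hHU v hv) j hjq
          · have := hs j v (hH hv) ih
            rw [hz j (by omega)] at this
            exact (Submodule.mem_bot K).1 this
      rw [Submodule.mem_bot, ← sum_homogeneousComponent v]
      exact Finset.sum_eq_zero fun j _ => hall j
    subst hH0
    refine ⟨inferInstance, ?_⟩
    rw [finrank_bot]
    exact Nat.zero_le _
  | succ r ih =>
    intro q hq U hU H hH hHU hj
    let f : T.BB →ₗ[T.L] T.BB := homogeneousComponent q
    let fK : T.BB →ₗ[K] T.BB := f.restrictScalars K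
    have hfK : ∀ v, fK v = f v := fun v => rfl
    obtain ⟨a1, a2⟩ := ih (q + 1) (by omega) (U ⊓ LinearMap.ker f) inferInstance
      (H ⊓ LinearMap.ker fK) (inf_le_left.trans hH)
      (by
        rintro v ⟨h1, h2⟩
        exact ⟨hHU v h1, h2⟩)
      (by
        rintro v ⟨h1, h2⟩ j hjq
        rcases Nat.lt_succ_iff_lt_or_eq.1 hjq with h3 | h3
        · exact hj v h1 j h3
        · subst h3
          exact h2)
    have himg : FiniteDimensional K (H.map fK) ∧
        Module.finrank K (H.map fK) ≤ Module.finrank T.L (U.map f) * h := by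
      by_cases hqm : q ≤ m
      · refine hg q hqm (U.map f) inferInstance (H.map fK) ?_ ?_
        · rintro v ⟨v, hv, rfl⟩
          exact hs q v (hH hv) fun j hjq => hj v (hHU v hv) j hjq
        · rintro v ⟨v, hv, rfl⟩
          exact ⟨v, hHU v hv, rfl⟩
      · have h0 : H.map fK = ⊥ := by
          rw [eq_bot_iff, ← hz q (by omega)]
          rintro v ⟨v, hv, rfl⟩
          exact hs q v (hH hv) fun j hjq => hj v (hHU v hv) j hjq
        rw [h0]
        refine ⟨inferInstance, ?_⟩
        rw [finrank_bot]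
        exact Nat.zero_le _
    obtain ⟨b1, b2⟩ := himg
    have hfin : FiniteDimensional K H :=
      (Submodule.fg_iff_finiteDimensional H).1 (Submodule.fg_of_fg_map_of_fg_inf_ker fK
        ((Submodule.fg_iff_finiteDimensional _).2 b1) ((Submodule.fg_iff_finiteDimensional _).2 a1))
    refine ⟨hfin, ?_⟩
    rw [← rn fK H, ← rn f U, add_mul]
    exact add_le_add b2 a2

omit T in
/-- For `d ≥ 2` the dimension is at least `1`. -/
theorem one_le_dim {K : Type} [Field K] {n d : ℕ} {F : HP K n} (hF : Nice d F) (hd : 2 ≤ d) : 1 ≤ n := by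
  by_contra hn
  have hn0 : n = 0 := by omega
  subst hn0
  have h := hF.irr0
  have hhom : (aeval (Fin.cons 0 X : Fin 2 → MvPolynomial (Fin 1) K) F).IsHomogeneous d := by
    rw [aeval_def, eval₂_eq']
    refine IsHomogeneous.sum _ _ _ fun a ha => ?_
    have h1 := hF.hom (mem_support_iff.1 ha)
    rw [Fin.prod_univ_two]
    by_cases h0 : a 0 = 0
    · have h2 : a 1 = d := by
        rw [← h1, Finsupp.weight_apply, Finsupp.sum_fintype _ _ (by simp)]
        simp [h0]
      have h3 : ((Fin.cons 0 X : Fin 2 → MvPolynomial (Fin 1) K) 1) = X 0 := rfl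
      rw [h0, pow_zero, one_mul, h2, h3, algebraMap_eq]
      have h4 := (isHomogeneous_C (Fin 1) (coeff a F)).mul (isHomogeneous_X_pow (R := K) (0 : Fin 1) d)
      rwa [zero_add] at h4
    · rw [Fin.cons_zero, zero_pow h0, zero_mul, mul_zero]
      exact isHomogeneous_zero _ _ _
  set G := aeval (Fin.cons 0 X : Fin 2 → MvPolynomial (Fin 1) K) F with hG
  obtain ⟨c, hc⟩ : ∃ c : K, G = C c * X 0 ^ d := by
    refine ⟨coeff (Finsupp.single 0 d) G, ?_⟩
    ext b
    rw [X_pow_eq_monomial, C_mul_monomial, mul_one, coeff_monomial]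
    by_cases hb : Finsupp.single 0 d = b
    · rw [if_pos hb, hb]
    · rw [if_neg hb]
      by_contra h5
      have h6 := hhom h5
      apply hb
      ext
      rw [← h6, Finsupp.weight_apply, Finsupp.sum_fintype _ _ (by simp)]
      simp
  rw [hc, show d = 1 + (d - 1) by omega, pow_add, pow_one, mul_comm (X 0), ← mul_assoc] at h
  have hX : ¬ IsUnit (X (0 : Fin 1) : MvPolynomial (Fin 1) K) := by
    intro hu
    have h8 := hu.map (aeval (fun _ => (0 : K)) : MvPolynomial (Fin 1) K →ₐ[K] K)
    rw [aeval_X] at h8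
    exact not_isUnit_zero h8
  rcases h.isUnit_or_isUnit rfl with h1 | h1
  · have h2 : IsUnit ((X (0 : Fin 1) : MvPolynomial (Fin 1) K) ^ (d - 1)) := isUnit_of_mul_isUnit_right h1
    exact hX ((isUnit_pow_iff (by omega)).1 h2)
  · exact hX h1

/-- KDIM from the statements which it uses. -/
theorem finrank_inter_le_of (hF : Nice d F) (hd : 2 ≤ d) (k m b : ℕ) (hsub : Subsp)
    (inj : Function.Injective T.ψ)
    (quot : ∀ s : ℕ, Module.finrank K (homogeneousSubmodule (Fin (n + 2)) K s ⧸ mult F s) = hyp n d s)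
    (psi : ∀ (q : ℕ) (i : Fin (n + 2)) (v : T.BB), v ∈ T.GG k (-(b : ℤ)) m q i →
      ∀ β, coeff β (T.ψ v) ≠ 0 → coeff β (T.ψ v) ∈ T.OO (-(b : ℤ) + ((d : ℤ) - 2) * q) i)
    (hoo : 1 ≤ n → ∀ (s : ℤ) (v : T.L), (∀ i, v ∈ T.OO s i) →
      (s < 0 → v = 0) ∧ (0 ≤ s → ∃ P : HP K n, P.IsHomogeneous s.toNat ∧ v = aeval T.x P))
    (strict : ∀ (q : ℕ) (i : Fin (n + 2)) (v : T.BB), v ∈ T.EE k (-(b : ℤ)) m i →
      (∀ j < q, homogeneousComponent j v = 0) → homogeneousComponent q v ∈ T.GG k (-(b : ℤ)) m q i)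
    (U : Submodule T.L T.BB) (hU : FiniteDimensional T.L U)
    (H : Submodule K T.BB) (hH : H ≤ FF.H0 (T.EE k (-(b : ℤ)) m)) (hHU : ∀ v ∈ H, v ∈ U) :
    FiniteDimensional K H ∧ Module.finrank K H ≤ Module.finrank T.L U * hyp n d ((d - 2) * m - b) := by
  classical
  have hn : 1 ≤ n := one_le_dim hF hd
  refine kdim_core T (fun q => FF.H0 (T.GG k (-(b : ℤ)) m q)) (FF.H0 (T.EE k (-(b : ℤ)) m)) m
    (hyp n d ((d - 2) * m - b)) ?_ ?_ ?_ (m + 1) 0 (by omega) U hU H hH hHU (by intro v _ j hj; omega)
  · intro q v hv hj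
    rw [FF.H0, Submodule.mem_iInf] at hv ⊢
    exact fun i => strict q i v (hv i) hj
  · intro q hqm U hU H hH hHU
    set s : ℤ := -(b : ℤ) + ((d : ℤ) - 2) * q with hs
    have hco : ∀ v ∈ H, ∀ b, ∀ i, coeff b (T.ψ v) ∈ T.OO s i := by
      intro v hv b i
      by_cases h0 : coeff b (T.ψ v) = 0
      · rw [h0]
        exact Submodule.zero_mem _
      · have h1 := hH hv
        rw [FF.H0, Submodule.mem_iInf] at h1
        exact psi q i v (h1 i) b h0
    rcases lt_or_ge s 0 with hs0 | hs0
    · have h2 := gr_bound T hsub inj (⊥ : Submodule K T.L) U hU H hHU (by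
        intro v hv b
        rw [Submodule.mem_bot]
        exact (hoo hn s _ (hco v hv b)).1 hs0)
      refine ⟨h2.1, h2.2.trans ?_⟩
      rw [finrank_bot, mul_zero]
      exact Nat.zero_le _
    · set t : ℕ := s.toNat with ht
      let φ : homogeneousSubmodule (Fin (n + 2)) K t →ₗ[K] T.L :=
        (aeval T.x : HP K n →ₐ[K] T.L).toLinearMap ∘ₗ (homogeneousSubmodule (Fin (n + 2)) K t).subtype
      have hker : LinearMap.ker φ = mult F t := by
        ext P
        rw [LinearMap.mem_ker]
        change aeval T.x P.1 = 0 ↔ P.1 ∈ Ideal.span {F}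
        rw [Ideal.mem_span_singleton]
        exact T.ker t P.1 ((mem_homogeneousSubmodule _ _).1 P.2)
      have hdim : Module.finrank K (LinearMap.range φ) = hyp n d t := by
        rw [← quot t, ← hker]
        exact (LinearMap.quotKerEquivRange φ).finrank_eq.symm
      have : FiniteDimensional K (LinearMap.range φ) := by
        apply Module.finite_of_finrank_pos
        rw [hdim]
        exact hyp_pos n d t (by omega)
      have h2 := gr_bound T hsub inj (LinearMap.range φ) U hU H hHU (by
        intro v hv b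
        obtain ⟨P, hP, hPe⟩ := (hoo hn s _ (hco v hv b)).2 hs0
        exact ⟨⟨P, (mem_homogeneousSubmodule _ _).2 hP⟩, hPe.symm⟩)
      refine ⟨h2.1, h2.2.trans (Nat.mul_le_mul_left _ ?_)⟩
      rw [hdim]
      apply hyp_mono
      have h3 : (t : ℤ) = -(b : ℤ) + ((d : ℤ) - 2) * q := by
        rw [ht, Int.toNat_of_nonneg hs0]
      have h4 : (((d - 2 : ℕ) : ℤ)) = (d : ℤ) - 2 := by
        push_cast [Nat.cast_sub hd]
        ring
      have h5 : (t : ℤ) + b = (((d - 2) * q : ℕ) : ℤ) := by
        rw [h3, ← h4]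
        push_cast
        ring
      have h6 : t + b = (d - 2) * q := by exact_mod_cast h5
      have h7 : (d - 2) * q ≤ (d - 2) * m := Nat.mul_le_mul_left _ hqm
      omega
  · intro q hq
    rw [eq_bot_iff]
    intro v hv
    rw [FF.H0, Submodule.mem_iInf] at hv
    have h1 := hv 0
    have h2 : T.GG k (-(b : ℤ)) m q 0 = ⊥ := by
      unfold FF.GG
      rw [Submodule.span_eq_bot]
      rintro w ⟨a, -, s, l, hsum, -⟩
      exfalso
      have h3 : q ≤ ∑ r, ((s r : ℕ) + 1) := by
        calc q = ∑ _r : Fin q, 1 := by simp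
          _ ≤ _ := Finset.sum_le_sum fun r _ => by omega
      omega
    rw [h2] at h1
    exact h1

end Pool.Agent.H16.UG
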